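import Mathlib
import Pool.Agent.MP_0380a0_co.Defs
import Pool.Agent.MP_0380a0_co.Embed
import Pool.Agent.MP_0380a0_co.Transitive

set_option autoImplicit false

/-!
# A vertex-transitive strongly universal countable distance-hereditary graph

The letters are pairs of a rational number and one of three colours.  The *graph of words* on the
finite words over this alphabet is distance-hereditary, and every countable distance-hereditary graph
is an induced subgraph of it.  A free-product construction over the graph of words then gives a
vertex-transitive distance-hereditary graph with the same property.
-/

open Pool.Agent.MP_0380a0_co

universe u

/-- There is a countable graph `U` which is distance-hereditary, vertex-transitive and strongly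
universal: every countable distance-hereditary graph is isomorphic to an induced subgraph
of `U`. -/
theorem Pool.Agent.Results.MP_0380a0_co.TransitiveUniversal.result :
    ∃ (W : Type) (_ : Countable W) (U : SimpleGraph W),
      DistanceHereditary U ∧
      (∀ (V : Type u) [Countable V] (G : SimpleGraph V), DistanceHereditary G →
        Nonempty (G ↪g U)) ∧
      (∀ x y : W, ∃ φ : U ≃g U, φ x = y) := by
  have : Countable Letter := by
    have : Countable (ℚ × Fin 3) := inferInstance
    exact this
  refine ⟨RW (List Letter), inferInstance, XG (WG col), distanceHereditary_xg (red_words col), ?_,
    xg_transitive _⟩
  intro V _ G hG
  obtain ⟨f⟩ := exists_embedding hG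
  exact ⟨(xgEmb (WG col)).comp f⟩
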